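import Mathlib
import Pool.Agent.Lib.MP_71630c_lc.Defs
import Pool.Agent.Lib.MP_71630c_lc.Lines

/-! One-half-regular resolution does not polynomially simulate resolution. -/

namespace Pool.Agent.Retired.MP_71630c_lc.Separation

open Pool.Agent.Lib.MP_71630c_lc

theorem eval_le_pow (P : Polynomial ℕ) : ∃ k : ℕ, ∀ x : ℕ, 2 ≤ x → P.eval x ≤ x ^ k := by
  induction P using Polynomial.induction_on' with
  | add P Q hP hQ =>
    obtain ⟨a, ha⟩ := hP
    obtain ⟨b, hb⟩ := hQ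
    refine ⟨a + b + 1, fun x hx => ?_⟩
    have h1 : x ^ a ≤ x ^ (a + b) := Nat.pow_le_pow_right (by omega) (by omega)
    have h2 : x ^ b ≤ x ^ (a + b) := Nat.pow_le_pow_right (by omega) (by omega)
    have h3 := ha x hx
    have h4 := hb x hx
    rw [Polynomial.eval_add, pow_succ]
    nlinarith
  | monomial n c =>
    refine ⟨c + n, fun x hx => ?_⟩
    rw [Polynomial.eval_monomial, pow_add]
    exact Nat.mul_le_mul_right _ ((Nat.lt_two_pow_self).le.trans (Nat.pow_le_pow_left hx c))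

theorem result (P : Polynomial ℕ) :
    ∃ (n : ℕ) (F : Finset (Finset (Fin n × Bool))) (s : ℕ)
      (C : Fin (s + 1) → Finset (Fin n × Bool)),
      (∀ x : Fin n, ∃ D ∈ F, ∃ b : Bool, (x, b) ∈ D) ∧ IsRefutation F s C ∧
      ∀ (s' : ℕ) (C' : Fin (s' + 1) → Finset (Fin n × Bool)), IsHalfRegular F s' C' →
        P.eval (n + F.card + (s + 1)) < s' + 1 := by
  obtain ⟨k, hk⟩ := eval_le_pow P
  obtain ⟨K, hK⟩ : ∃ K, K = 96 * k + 4 := ⟨_, rfl⟩
  obtain ⟨p, hp, hprime⟩ := Nat.exists_infinite_primes (500 * K ^ 2)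
  have : Fact p.Prime := ⟨hprime⟩
  have hK1 : 1 ≤ K := by omega
  have hKp : 500 * K ≤ p := by nlinarith
  have hh : (120 * p * K + 1) * (4 * K) ≤ p * p := by nlinarith
  let e : Fin (3 * (p * p)) ≃ (ZMod p × ZMod p) × Fin 3 :=
    (Fintype.equivFinOfCardEq (by
      rw [Fintype.card_prod, Fintype.card_prod, ZMod.card, Fintype.card_fin, mul_comm])).symm
  have hL : ∀ v, (gam p e (4 * K) v).card ≤ 3 * p := fun v => (card_gam p e _ v).le
  obtain ⟨s, C, hs, hC⟩ := short_refutation (h := 120 * p * K) (W := 4 * K) (by omega) hL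
  refine ⟨3 * (p * p), form (120 * p * K) (4 * K) (gam p e (4 * K)), s, C,
    all_occur p e (by omega) hh (by nlinarith) (by omega), hC, fun s' C' hC' => ?_⟩
  have h1 := lower_bound p e K hK1 hp C' hC'
  have h2 := card_form (h := 120 * p * K) (W := 4 * K) hL
  set f := (form (120 * p * K) (4 * K) (gam p e (4 * K))).card
  set Q := 2 ^ (18 * p) with hQ
  have q0 : 1 ≤ Q := Nat.one_le_two_pow
  have q1 : 2 ^ (6 * (3 * p)) = Q := by rw [hQ]; congr 1; ring
  have q2 : 2 ^ (2 * (3 * p)) * 2 ^ (3 * (3 * p)) ≤ Q := by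
    rw [← pow_add]; exact Nat.pow_le_pow_right (by norm_num) (by omega)
  have q3 : 2 ^ (3 * p) ≤ Q := Nat.pow_le_pow_right (by norm_num) (by omega)
  have q4 : f ≤ (p * p + 1) * Q := by
    rw [q1] at h2
    exact h2.trans (Nat.mul_le_mul_right _ (by omega))
  have q5 : (120 * p * K + 1) * (4 * K * (2 ^ (2 * (3 * p)) * 2 ^ (3 * (3 * p)))) ≤ p * p * Q := by
    rw [← mul_assoc]; exact Nat.mul_le_mul hh q2
  have q6 : p * p ≤ p * p * Q := Nat.le_mul_of_pos_right _ q0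
  have q7 : Q ≤ p * p * Q := Nat.le_mul_of_pos_left _ (by nlinarith)
  have q8 : 3 * (p * p) + f + (s + 1) ≤ 16 * (p * p * Q) := by
    rw [add_mul, one_mul] at q4
    omega
  have q9 : 16 * (p * p * Q) ≤ 2 ^ (24 * p) := by
    have a1 : p ≤ 2 ^ p := (Nat.lt_two_pow_self).le
    have a2 : 16 ≤ 2 ^ (4 * p) :=
      le_trans (by norm_num) (Nat.pow_le_pow_right (by norm_num) (show 4 ≤ 4 * p by omega))
    calc 16 * (p * p * Q) ≤ 2 ^ (4 * p) * (2 ^ p * 2 ^ p * Q) := by gcongr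
      _ = 2 ^ (24 * p) := by rw [hQ, ← pow_add, ← pow_add, ← pow_add]; congr 1; ring
  have h3 := hk (3 * (p * p) + f + (s + 1)) (by nlinarith)
  have h4 : (3 * (p * p) + f + (s + 1)) ^ k ≤ 2 ^ ((24 * k + 1) * p) :=
    (Nat.pow_le_pow_left (q8.trans q9) k).trans (by
      rw [← pow_mul]; exact Nat.pow_le_pow_right (by norm_num) (by nlinarith))
  by_contra h5
  have h6 : s' + 1 ≤ 2 ^ ((24 * k + 1) * p) := (not_lt.mp h5).trans (h3.trans h4)
  have h7 : K * p = 4 * ((24 * k + 1) * p) := by rw [hK]; ring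
  rw [h7, pow_mul, pow_mul 5] at h1
  have h8 := h1.trans (Nat.mul_le_mul_right _ h6)
  rw [← mul_pow] at h8
  have h9 : (24 * k + 1) * p ≠ 0 := Nat.mul_ne_zero (by omega) (by omega)
  exact absurd h8 (not_le.mpr (Nat.pow_lt_pow_left (by norm_num) h9))

end Pool.Agent.Retired.MP_71630c_lc.Separation
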