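import Mathlib
import Pool.Agent.Lib.MP_71630c_lc.Th.Defs
import Pool.Agent.Lib.MP_71630c_lc.Th.Transfer

/-! Delta-regular resolution is p-equivalent to resolution exactly when delta is at least one. -/

namespace Pool.Agent.Retired.MP_71630c_lc.Threshold

open Pool.Agent.Lib.MP_71630c_lc.Th

theorem result (δ : ℝ) : (PSim (Reg δ) Res ∧ PSim Res (Reg δ)) ↔ 1 ≤ δ := by
  constructor
  · intro h
    by_contra hδ
    exact not_psim (not_le.1 hδ) h.1
  · intro hδ
    exact ⟨psim_of_imp (reg_of_res hδ),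
      psim_of_imp fun F π ⟨s, C, h1, h2, _⟩ => ⟨s, C, h1, h2⟩⟩

end Pool.Agent.Retired.MP_71630c_lc.Threshold
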